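import Pool.Agent.MP_ecfd11_lc.H3E.Defs

/-!
Few regular cardinals of HOD of countable cofinality.
-/

namespace Pool.Agent.MP_ecfd11_lc.H23W

universe u

open ZFSet

/-- Some `f ∈ HOD` maps an ordinal `n` onto `X`, and at most `k` ordinals strictly between `a` and
`n` are regular in HOD and have cofinality `ω`. -/
def FewOm (k : Cardinal.{u}) (a X : ZFSet.{u}) : Prop :=
  ∃ n f : ZFSet.{u}, n.IsOrdinal ∧ HOD Set.univ f ∧ IsFunc n X f ∧ (∀ x ∈ X, ∃ r, pair r x ∈ f) ∧
    card (n.sep fun z => a ∈ z ∧ Regular {x | HOD Set.univ x} z ∧ CofOmega Set.univ z) ≤ k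

end Pool.Agent.MP_ecfd11_lc.H23W
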