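import Pool.Agent.MP_ecfd11_lc.H13U.Cov
import Pool.Agent.MP_ecfd11_lc.H65D.Base

/-!
Covering moves up along a definable system of injections on a stationary set.
-/

set_option synthInstance.maxSize 4000

namespace Pool.Agent.MP_ecfd11_lc.H23W

open Pool.Agent.MP_ecfd11_lc.H20 Pool.Agent.MP_ecfd11_lc.H13X Pool.Agent.MP_ecfd11_lc.H3U
  Pool.Agent.MP_ecfd11_lc.H3E Pool.Agent.MP_ecfd11_lc.H13F Pool.Agent.MP_ecfd11_lc.H65S
  Pool.Agent.MP_ecfd11_lc.H13U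

universe u

open ZFSet Cardinal Function Filter

theorem sm_of_not_bd {t n : ZFSet.{u}} (hn : Unc n) (h : ¬ H57F.Bd (card t) n) : Sm t n := by
  by_contra h0
  refine h fun y y1 y2 => by_contra fun h1 => h0 ⟨y, y1, not_le.2 y2, fun x hx => by_contra fun h2 =>
    h1 ⟨_, hn.succ_mem hx, fun z hz => mem_insert_iff.2
      ((hn.1.mem (y1 hz)).eq_or_mem_of_subset (hn.1.mem hx)
        (((hn.1.mem hx).notMem_iff_subset (hn.1.mem (y1 hz))).1 fun h3 => h2 ⟨z, hz, h3⟩))⟩⟩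

theorem rel_stat {t n r S : ZFSet.{u}} {k : Cardinal.{u}} (hk : ℵ₀ ≤ k) (ht : Regular Set.univ t)
    (hn : Unc n) (s0 : OD Set.univ S) (s1 : ¬ Null n S) (D : ZFSet.{u} → ZFSet.{u})
    (e : ZFSet.{u} → ZFSet.{u} → ZFSet.{u}) (d0 : Tm Set.univ On (fun v => D (v 0)))
    (e0 : Tm Set.univ On (fun v => e (v 0) (v 1)))
    (h1 : ∀ x ∈ n, x ∈ S → (∀ z ∈ D x, e x z ∈ r) ∧ ∀ z ∈ D x, ∀ w ∈ D x, e x z = e x w → z = w)
    (h2 : ∀ z ∈ n, ∀ᶠ x in cf S hn, z ∈ D x)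
    (h3 : ∀ Z, Z ⊆ r → card Z < card t → Cv k t Z) :
    ∀ Z, Z ⊆ n → card Z < card t → Cv k t Z := by
  intro Z z1 z2
  have := neBot hn s1
  have := Tm.one (C := Set.univ) (A := On) D
  have := Tm.two (C := Set.univ) (A := On) e
  have := od_iff.1 s0
  have : Tm Set.univ On (fun _ => n) := Tm.ofOrd hn.1
  have hi : ℵ₀ ≤ card t := ht.aleph0_lt.le
  have a1 : ∀ x ∈ n, x ∈ S → Cv k t (Z ∩ D x) := fun x x1 x2 => by
    have : Tm Set.univ On (fun _ => x) := Tm.ofOrd (hn.1.mem x1)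
    refine cv_img (h3 (img (e x) (Z ∩ D x)) (fun y hy => ?_) ((card_img_le _ _).trans_lt
      ((card_mono fun z hz => (mem_inter.1 hz).1).trans_lt z2))) (X := D x)
      (od_iff.2 inferInstance) (fun z => e x z) (h1 x x1 x2).2 (fun z hz => (mem_inter.1 hz).2)
      fun z hz => mem_img.2 ⟨z, hz, rfl⟩
    obtain ⟨z, hz, rfl⟩ := mem_img.1 hy
    exact (h1 x x1 x2).1 z (mem_inter.1 hz).2
  by_cases hb : H57F.Bd (card t) n
  · obtain ⟨x, x1, x2⟩ := ((H57F.ev_small hn hb z2 fun z hz => h2 z (z1 hz)).and (ev_mem hn)).exists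
    exact cv_mono (a1 x x2.2 x2.1) fun z hz => mem_inter.2 ⟨hz, x1 z hz⟩
  by_cases hc : H57F.Bd (Order.succ k) n
  swap
  · have g1 : card (succCard k.ord.toZFSet) = Order.succ k := by rw [card_succCard, card_ord']
    obtain ⟨c, c1, c2⟩ := (sm_of_not_bd hn (g1.symm ▸ hc)).exists_club
      (regular_succCard (hk.trans_eq (card_ord' _).symm)) hn.1
    rw [g1, Order.lt_succ_iff] at c2
    refine Cv.union hk (y := c ∩ S) ((card_mono fun z hz => (mem_inter.1 hz).1).trans c2)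
      (fun x => Z ∩ D x) (fun x hx => a1 x (c1.1 (mem_inter.1 hx).1) (mem_inter.1 hx).2)
      fun z hz => ?_
    obtain ⟨x, x1, x2, x3⟩ := ((h2 z (z1 hz)).and ((ev_club hn c1).and (ev_mem hn))).exists
    exact ⟨x, mem_inter.2 ⟨x2, x3.1⟩, mem_inter.2 ⟨hz, x1⟩⟩
  obtain ⟨c, c1, c2⟩ := (sm_of_not_bd hn hb).exists_club ht hn.1
  have z3 : card (img (fun p => e (fst p) (snd p))
      ((prod c Z).sep fun p => fst p ∈ S ∧ snd p ∈ D (fst p))) < card t :=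
    (card_img_le _ _).trans_lt ((card_mono sep_subset).trans_lt
      ((card_prod_le _ _).trans_lt (mul_lt_of_lt hi c2 z2)))
  obtain ⟨u, u1, u2, u3⟩ := cv_small ht (h3 _ (fun z hz => by
    obtain ⟨p, hp, rfl⟩ := mem_img.1 hz
    obtain ⟨l, hl, x, -, rfl⟩ := mem_prod.1 (mem_sep.1 hp).1
    have := (mem_sep.1 hp).2
    rw [fst_pair, snd_pair] at this ⊢
    exact (h1 l (c1.1 hl) this.1).1 x this.2) z3) z3
  refine Cv.union hk u1 (fun W => n.sep fun z => ¬ Null n (S.sep fun l => z ∈ D l ∧ e l z ∈ W))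
    (fun W w1 => ?_) fun x hx => ?_
  · have := od_iff.1 (u2 W w1).1
    obtain ⟨b, b1, F, -, f1, f2⟩ := (u2 W w1).2
    obtain ⟨X, hX⟩ : ∃ X, X = n.sep fun z => ¬ Null n (S.sep fun l => z ∈ D l ∧ e l z ∈ W) :=
      ⟨_, rfl⟩
    have x0 : Tm Set.univ On (fun _ => X) := by rw [hX]; infer_instance
    have x1 : ∀ z, z ∈ X ↔ z ∈ n ∧ ∃ᶠ l in cf S hn, z ∈ D l ∧ e l z ∈ W := fun z => by
      rw [hX, mem_sep, fr_iff]
    rw [← hX]
    have x2 : card X < card t := by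
      have h4 : ∀ z ∈ X, ∃ l ∈ c, l ∈ S ∧ z ∈ D l ∧ e l z ∈ W := fun z hz => by
        obtain ⟨l, l1, l2, l3⟩ :=
          (((x1 z).1 hz).2.and_eventually ((ev_club hn c1).and (ev_mem hn))).exists
        exact ⟨l, l2, l3.1, l1⟩
      choose! p p1 p0 p2 p3 using h4
      refine (card_le_of_inj (b := prod c b) (fun z => pair (p z) (F (e (p z) z)))
        (fun z hz => pair_mem_prod.2 ⟨p1 z hz, f1 _ (p3 z hz)⟩) fun z hz w hw e1 => ?_).trans_lt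
        ((card_prod_le _ _).trans_lt (mul_lt_of_lt hi c2 (ht.card_lt b1)))
      obtain ⟨e3, e4⟩ := pair_inj.1 e1
      have e5 := f2 _ (p3 z hz) _ (p3 w hw) e4
      rw [← e3] at e5
      exact (h1 _ (c1.1 (p1 z hz)) (p0 z hz)).2 z (p2 z hz) w (e3 ▸ p2 w hw) e5
    have x3 : ∀ z ∈ X, z.IsOrdinal := fun z hz => hn.1.mem ((x1 z).1 hz).1
    exact Cv.self hk (od_iff.2 x0) ⟨fun z => colIn X z, inferInstance,
      fun z hz => ht.1.mem_trans (mem_img.2 ⟨z, hz, rfl⟩) (H46.mem_of_card_lt (img_colIn_ord x3)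
        ht.1 ((card_img_le _ _).trans_lt x2)), fun z hz w hw => colIn_inj x3 hz hw⟩
  · by_contra h4
    have h5 : ∀ W ∈ u, ∀ᶠ l in cf S hn, ¬ (x ∈ D l ∧ e l x ∈ W) := fun W hW =>
      not_frequently.1 fun h6 => h4 ⟨W, hW, mem_sep.2 ⟨z1 hx, (fr_iff hn).1 h6⟩⟩
    obtain ⟨l, l1, l2, l3, l4⟩ := ((H57F.ev_small hn hc (Order.lt_succ_iff.2 u1) h5).and
      ((h2 x (z1 hx)).and ((ev_club hn c1).and (ev_mem hn)))).exists
    obtain ⟨W, w1, w2⟩ := u3 (e l x) (mem_img.2 ⟨pair l x, mem_sep.2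
      ⟨pair_mem_prod.2 ⟨l3, hx⟩, by rw [fst_pair, snd_pair]; exact ⟨l4.1, l2⟩⟩,
      by rw [fst_pair, snd_pair]⟩)
    exact l1 W w1 ⟨l2, w2⟩

theorem rel {t n r : ZFSet.{u}} {k : Cardinal.{u}} (hk : ℵ₀ ≤ k) (ht : Regular Set.univ t)
    (hu : Unc n) (_hr : Regular {x | HOD Set.univ x} n) (_htn : t ⊆ n) (D : ZFSet.{u} → ZFSet.{u})
    (e : ZFSet.{u} → ZFSet.{u} → ZFSet.{u}) (d0 : Tm Set.univ On (fun v => D (v 0)))
    (e0 : Tm Set.univ On (fun v => e (v 0) (v 1)))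
    (h1 : ∀ x ∈ n, H65D.Cw x →
      (∀ z ∈ D x, e x z ∈ r) ∧ ∀ z ∈ D x, ∀ w ∈ D x, e x z = e x w → z = w)
    (h2 : ∀ z ∈ n, ∀ᶠ x in cf (n.sep H65D.Cw) hu, z ∈ D x)
    (h : ∀ Z, Z ⊆ r → card Z < card t → Cv k t Z) :
    ∀ Z, Z ⊆ n → card Z < card t → Cv k t Z := by
  have : Tm Set.univ On (fun _ => n) := Tm.ofOrd hu.1
  exact rel_stat hk ht hu (od_iff.2
      (show Tm Set.univ On (fun _ => n.sep fun x => Sm (succCard om) x) from inferInstance))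
    (not_null_sm hu (regular_succCard card_om.ge) fun _ hg hs => mem_sep.2 ⟨hg, hs⟩) D e d0 e0
    (fun x hx hs => h1 x hx (mem_sep.1 hs).2) h2 h

end Pool.Agent.MP_ecfd11_lc.H23W
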