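import Pool.Agent.MP_ecfd11_lc.H13U.Cov
import Pool.Agent.MP_ecfd11_lc.H46M.Main

/-!
Covering below a successor cardinal of HOD of countable cofinality.
-/

set_option synthInstance.maxSize 4000

namespace Pool.Agent.MP_ecfd11_lc.H23W

open Pool.Agent.MP_ecfd11_lc.H20 Pool.Agent.MP_ecfd11_lc.H13X Pool.Agent.MP_ecfd11_lc.H3U
  Pool.Agent.MP_ecfd11_lc.H3E Pool.Agent.MP_ecfd11_lc.H13F Pool.Agent.MP_ecfd11_lc.H65S
  Pool.Agent.MP_ecfd11_lc.H13U

universe u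

open ZFSet Cardinal Function Filter

variable {t n th c y s x : ZFSet.{u}} {k : Cardinal.{u}}

theorem sv_succ (ha : x.IsOrdinal) (ho : om ⊆ x) (ht : s.IsOrdinal)
    (t1 : ∀ b ∈ s, DInj Set.univ b x) (t2 : ¬ DInj Set.univ s x) :
    ∀ b ∈ s, insert b b ∈ s := fun b hb =>
  ((ht.mem hb).mem_or_subset ha).elim
    (fun h => (isOrdinal_succ (ht.mem hb)).mem_or_subset ht |>.resolve_right fun h3 =>
      t2 (DInj.of_subset fun _ hz => (mem_insert_iff.1 (h3 hz)).elim (fun e => e ▸ h)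
        fun h4 => ha.mem_trans h4 h))
    fun h => (isOrdinal_succ (ht.mem hb)).mem_or_subset ht |>.resolve_right fun h3 =>
      t2 ((DInj.of_subset h3).trans ((DInj.hotel (ht.mem hb) (ho.trans h)).trans (t1 b hb)))

theorem sv_rho (hb : s.IsOrdinal) (hx : x.IsOrdinal) (h : DInj Set.univ s x) : H46.rho s ⊆ x :=
  (hx.mem_or_subset (H46.rho_ord hb)).resolve_left fun h1 =>
    (H46.rho_spec hb).2.2 x h1 (h.exists_od hb)

/-- Functions below the successors that increase on tails. -/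
theorem sv_fun (t0 : th.IsOrdinal) (E : ZFSet.{u} → ZFSet.{u} → ZFSet.{u})
    (e0 : Tm Set.univ On (fun v => E (v 0) (v 1)))
    (e2 : ∀ x ∈ th, ∀ y ∈ x, ∀ z ∈ x, E x y = E x z → y = z) :
    ∃ H : ZFSet.{u} → ZFSet.{u} → ZFSet.{u}, Tm Set.univ On (fun v => H (v 0) (v 1)) ∧
      (∀ b x c, c ∈ b → E b c ∈ x → H c x ∈ H b x) ∧
      ∀ x s : ZFSet.{u}, x.IsOrdinal → om ⊆ x → s.IsOrdinal → (∀ b ∈ s, DInj Set.univ b x) →
        ¬ DInj Set.univ s x → ∀ b ∈ th, H b x ∈ s := by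
  have := Tm.two (C := Set.univ) (A := On) E
  let pr : ZFSet.{u} → ZFSet.{u} := fun p =>
    img (fun c => pair c (snd p)) ((fst p).sep fun c => E (fst p) c ∈ snd p)
  have wf : WellFounded fun v w => v ∈ pr w :=
    Subrelation.wf (r := InvImage (· ∈ ·) fst) (fun {v w} hv => by
      obtain ⟨c, hc, rfl⟩ := mem_img.1 hv
      change fst (pair c (snd w)) ∈ fst w
      rw [fst_pair]
      exact (mem_sep.1 hc).1) (InvImage.wf _ mem_wf)
  obtain ⟨H, eH⟩ : ∃ H, H = recF pr fun _ g => ⋃₀ img (fun q => insert (snd q) (snd q)) g :=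
    ⟨_, rfl⟩
  have tH : Tm Set.univ On (fun v => H (v 0)) :=
    Tm.recursion (fun _ => pr) (fun _ _ g => ⋃₀ img (fun q => insert (snd q) (snd q)) g)
      (fun _ => H) (hp := by simp only [pr]; infer_instance) (fun _ _ => wf)
      fun _ _ x _ => eH ▸ recF_eq wf _ x
  have := Tm.one (C := Set.univ) (A := On) H
  have h1 : ∀ b x z, z ∈ H (pair b x) ↔
      ∃ c ∈ b, E b c ∈ x ∧ z ∈ insert (H (pair c x)) (H (pair c x)) := fun b x z => by
    have e : H (pair b x) = ⋃₀ img (fun q => insert (snd q) (snd q)) (gr H (pr (pair b x))) :=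
      eH ▸ recF_eq wf _ _
    rw [e, mem_sUnion]
    constructor
    · rintro ⟨w, w1, w2⟩
      obtain ⟨q, q1, rfl⟩ := mem_img.1 w1
      obtain ⟨p, p1, rfl⟩ := mem_img.1 q1
      obtain ⟨c, hc, rfl⟩ := mem_img.1 p1
      simp only [fst_pair, snd_pair, mem_sep] at hc w2
      exact ⟨c, hc.1, hc.2, w2⟩
    · rintro ⟨c, c1, c2, c3⟩
      refine ⟨_, mem_img.2 ⟨pair (pair c x) (H (pair c x)), pair_mem_gr.2 ⟨mem_img.2 ⟨c, ?_, ?_⟩,
        rfl⟩, rfl⟩, by rwa [snd_pair]⟩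
      · simp only [fst_pair, snd_pair, mem_sep]
        exact ⟨c1, c2⟩
      · rw [snd_pair]
  refine ⟨fun b x => H (pair b x), inferInstance, fun b x c h2 h3 =>
    (h1 b x _).2 ⟨c, h2, h3, mem_insert _ _⟩, fun x s xo ho so s1 s2 b => ?_⟩
  induction b using ZFSet.inductionOn with
  | _ b ih =>
  intro hb
  have bo := t0.mem hb
  have ih' : ∀ c ∈ b, H (pair c x) ∈ s := fun c hc => ih c hc (t0.mem_trans hc hb)
  have : Tm Set.univ On (fun _ => b) := Tm.ofOrd bo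
  have : Tm Set.univ On (fun _ => x) := Tm.ofOrd xo
  obtain ⟨q, q0, q1, q2⟩ : ∃ q : ZFSet.{u} → ZFSet.{u}, Tm Set.univ On (fun v => q (v 0)) ∧
      (∀ z ∈ img (fun c => H (pair c x)) (b.sep fun c => E b c ∈ x),
        q z ∈ b ∧ E b (q z) ∈ x) ∧
      ∀ z ∈ img (fun c => H (pair c x)) (b.sep fun c => E b c ∈ x), H (pair (q z) x) = z := by
    have h2 : ∀ z ∈ img (fun c => H (pair c x)) (b.sep fun c => E b c ∈ x), _ := fun z hz =>
      leastBy_id (p := fun c => E b c ∈ x ∧ H (pair c x) = z) bo (by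
        obtain ⟨c, hc, e⟩ := mem_img.1 hz
        exact ⟨c, (mem_sep.1 hc).1, (mem_sep.1 hc).2, e⟩)
    exact ⟨fun z => leastBy b (fun c => c) fun c => E b c ∈ x ∧ H (pair c x) = z,
      Tm.leastBy b (fun c => c) fun z c => E b c ∈ x ∧ H (pair c x) = z,
      fun z hz => ⟨(h2 z hz).1, (h2 z hz).2.1⟩, fun z hz => (h2 z hz).2.2⟩
  have := Tm.one (C := Set.univ) (A := On) q
  obtain ⟨d, d1, d2⟩ := kp_bdd xo ho so s1 s2
    (X := img (fun c => H (pair c x)) (b.sep fun c => E b c ∈ x)) (od_iff.2 inferInstance)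
    ⟨fun z => E b (q z), inferInstance, fun z hz => (q1 z hz).2, fun z hz w hw e => by
      rw [← q2 z hz, ← q2 w hw, e2 b hb _ (q1 z hz).1 _ (q1 w hw).1 e]⟩
  have d3 := sv_succ xo ho so s1 s2 d d1
  have h3 : H (pair b x) ⊆ insert d d := fun z hz => by
    obtain ⟨c, c1, c2, c3⟩ := (h1 b x z).1 hz
    have h4 := d2 _ (mem_img.2 ⟨c, mem_sep.2 ⟨c1, c2⟩, rfl⟩) (ih' c c1)
    rcases mem_insert_iff.1 c3 with rfl | c3
    · exact mem_insert_iff.2 ((so.mem (ih' c c1)).eq_or_mem_of_subset (so.mem d1) h4)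
    · exact mem_insert_of_mem _ (h4 c3)
  have h4 : (H (pair b x)).IsOrdinal := isOrdinal_iff_forall_mem_isOrdinal.2
    ⟨fun z hz w hw => by
      obtain ⟨c, c1, c2, c3⟩ := (h1 b x z).1 hz
      exact (h1 b x w).2 ⟨c, c1, c2, (isOrdinal_succ (so.mem (ih' c c1))).mem_trans hw c3⟩,
      fun z hz => (so.mem d3).mem (h3 hz)⟩
  exact h4.mem_of_subset_of_mem so h3 d3

/-- A definable family of regressive functions that differ on a club. -/
theorem sv_reg (hk : ℵ₀ ≤ k) (hn : Unc n) (hb : H57F.Bd (Order.succ k) n)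
    (t0 : th.IsOrdinal) (t1 : ∀ b ∈ th, DInj Set.univ b n) (t2 : ¬ DInj Set.univ th n)
    (y1 : card y ≤ card om) (y2 : y ⊆ th) (y3 : ∀ b ∈ th, ∃ z ∈ y, b ∈ z)
    (hs : ∀ᶠ x in cf n hn, ∀ s : ZFSet.{u}, s.IsOrdinal → (∀ b ∈ s, DInj Set.univ b x) →
      ¬ DInj Set.univ s x → Unc s) :
    ∃ (h : ZFSet.{u} → ZFSet.{u} → ZFSet.{u}) (P : ZFSet.{u} → ZFSet.{u} → Prop),
      Df Set.univ On (fun v => P (v 0) (v 1)) ∧
      (∀ b ∈ th, ∀ G, P b G ↔ ∃ᶠ x in cf n hn, h b x ∈ G) ∧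
      (∀ b ∈ th, ∀ᶠ x in cf n hn, h b x ∈ x) ∧
      ∀ b ∈ th, ∀ c ∈ th, b ≠ c → ∀ᶠ x in cf n hn, h b x ≠ h c x := by
  obtain ⟨E, e0, e1, e2⟩ := H46.exists_E t0
  obtain ⟨H, h0, h1, h2⟩ := sv_fun t0 E e0 e2
  have := Tm.two (C := Set.univ) (A := On) E
  have := Tm.two (C := Set.univ) (A := On) H
  have : Tm Set.univ On (fun _ => n) := Tm.ofOrd hn.1
  have : Tm Set.univ On (fun _ => th) := Tm.ofOrd t0
  have : Tm Set.univ On (fun _ => om.{u}) := Tm.ofOrd (isOrdinal_toZFSet _)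
  have lt : ∀ b ∈ th, ∀ c ∈ b, ∀ᶠ x in cf n hn, H c x ∈ H b x := fun b hb c hc =>
    (ev_above hn (sv_rho (t0.mem hb) hn.1 (t1 b hb) (e1 b hb c hc))).mono fun x hx =>
      h1 b x c hc hx
  have sm : ∀ w : ZFSet.{u}, card w ≤ card om → card w < Order.succ k := fun w hw =>
    Order.lt_succ_iff.2 (hw.trans (card_om.trans_le hk))
  have good : ∀ᶠ x in cf n hn, ∃ s : ZFSet.{u}, s ⊆ th ∧ Unc s ∧
      (∀ b ∈ s, DInj Set.univ b x) ∧ (∀ b ∈ th, H b x ∈ s) ∧ x.IsOrdinal := by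
    filter_upwards [hs, ev_above hn hn.omega_mem, ev_mem hn] with x x1 x2 x3
    have xo := hn.1.mem x3.2
    obtain ⟨s, s0, s1, s2, -⟩ := H46M.exists_th xo
    exact ⟨s, (t0.mem_or_subset s0).resolve_left fun h => t2 ((s1 _ h).trans
      (DInj.of_subset (hn.1.subset_of_mem x3.2))), x1 s s0 s1 s2, s1,
      h2 x s xo (xo.subset_of_mem x2) s0 s1 s2, xo⟩
  have le : ∀ w w' : ZFSet.{u}, card w ≤ card om → w ⊆ th → w' ⊆ th →
      (∀ b, b ∈ th → ∃ z, z ∈ w' ∧ b ∈ z) → ∀ᶠ x in cf n hn,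
        (⋃₀ img (fun c => H c x) w : ZFSet.{u}) ⊆ ⋃₀ img (fun c => H c x) w' :=
    fun w w' w1 w2 w3 w4 => by
      filter_upwards [good, H57F.ev_small (S := n) hn hb (sm w w1)
        (p := fun c x => ∃ z ∈ w', H c x ∈ H z x) fun c hc => by
          obtain ⟨z, z1, z2⟩ := w4 c (w2 hc)
          exact (lt z (w3 z1) c z2).mono fun x hx => ⟨z, z1, hx⟩] with x ⟨s, _, s1, _, s3, _⟩ hx r hr
      obtain ⟨_, r1, r2⟩ := mem_sUnion.1 hr
      obtain ⟨c, hc, rfl⟩ := mem_img.1 r1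
      obtain ⟨z, z1, z2⟩ := hx c hc
      exact mem_sUnion.2 ⟨_, mem_img.2 ⟨z, z1, rfl⟩, (s1.1.mem (s3 z (w3 z1))).mem_trans r2 z2⟩
  have inG : ∀ b ∈ th, ∀ᶠ x in cf n hn, H b x ∈ (⋃₀ img (fun c => H c x) y : ZFSet.{u}) :=
    fun b hb => by
      obtain ⟨z, z1, z2⟩ := y3 b hb
      exact (lt z (y2 z1) b z2).mono fun x hx => mem_sUnion.2 ⟨_, mem_img.2 ⟨z, z1, rfl⟩, hx⟩
  have gd : ∀ᶠ x in cf n hn, (⋃₀ img (fun c => H c x) y : ZFSet.{u}) ∈ th ∧
      H46.rho (⋃₀ img (fun c => H c x) y) ⊆ x := by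
    filter_upwards [good] with x ⟨s, s0, s1, s2, s3, xo⟩
    have o1 : ∀ z ∈ img (fun c => H c x) y, z ∈ s := fun z hz => by
      obtain ⟨c, hc, rfl⟩ := mem_img.1 hz
      exact s3 c (y2 hc)
    obtain ⟨d, d1, d2⟩ := s1.2 _ o1 ((card_img_le _ _).trans y1)
    have o2 := isOrdinal_sUnion fun z hz => s1.1.mem (o1 z hz)
    have o3 : (⋃₀ img (fun c => H c x) y : ZFSet.{u}) ∈ s :=
      o2.mem_of_subset_of_mem s1.1 (fun r hr => by
        obtain ⟨z, z1, z2⟩ := mem_sUnion.1 hr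
        exact (s1.1.mem d1).mem_trans z2 (d2 z z1)) d1
    exact ⟨s0 o3, sv_rho o2 xo (s2 _ o3)⟩
  have ne : ∀ b ∈ th, ∀ c ∈ b, ∀ᶠ x in cf n hn, E (⋃₀ img (fun c => H c x) y) (H b x) ≠
      E (⋃₀ img (fun c => H c x) y) (H c x) := fun b hb c hc => by
    filter_upwards [gd, inG b hb, inG c (t0.mem_trans hc hb), lt b hb c hc] with x x1 x2 x3 x4 e
    exact mem_irrefl _ (e2 _ x1.1 _ x2 _ x3 e ▸ x4)
  refine ⟨fun b x => E (⋃₀ img (fun c => H c x) y) (H b x), fun b G => ∃ w, (card w ≤ card om ∧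
    w ⊆ th ∧ ∀ b, b ∈ th → ∃ z, z ∈ w ∧ b ∈ z) ∧
      ¬ Null n (n.sep fun x => E (⋃₀ img (fun c => H c x) w) (H b x) ∈ G), inferInstance,
    fun b _ G => ⟨fun ⟨w, ⟨w1, w2, w3⟩, w4⟩ => ?_, fun h => ⟨y, ⟨y1, y2, y3⟩, (fr_iff hn).1 h⟩⟩,
    fun b hb => ?_, fun b hb c hc e => ?_⟩
  · refine (((fr_iff hn).2 w4).and_eventually ((le w y w1 w2 y2 y3).and
      (le y w y1 y2 w2 w3))).mono fun x ⟨x1, x2, x3⟩ => ?_
    rwa [subset_antisymm x2 x3] at x1
  · filter_upwards [gd, inG b hb] with x x1 x2 using x1.2 (e1 _ x1.1 _ x2)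
  · rcases (t0.mem hb).mem_trichotomous (t0.mem hc) with h | h | h
    · exact (ne c hc b h).mono fun x hx => hx.symm
    · exact absurd h e
    · exact ne b hb c h

theorem silver (hk : ℵ₀ ≤ k) (ht : Regular Set.univ t) (sl : ∀ l < card t, 2 ^ l < card t)
    (hn : Unc n) (hb : H57F.Bd (Order.succ k) n) (c1 : Club n c) (c2 : card c < card t)
    (t0 : th.IsOrdinal) (t1 : ∀ b ∈ th, DInj Set.univ b n) (t2 : ¬ DInj Set.univ th n)
    (y1 : card y ≤ card om) (y2 : y ⊆ th) (y3 : ∀ b ∈ th, ∃ z ∈ y, b ∈ z)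
    (hs : ∀ᶠ x in cf n hn, ∀ s : ZFSet.{u}, s.IsOrdinal → (∀ b ∈ s, DInj Set.univ b x) →
      ¬ DInj Set.univ s x → Unc s)
    (h2 : ∀ j ∈ n, ∀ Z, Z ⊆ j → card Z < card t → Cv k t Z) :
    ∀ Z, Z ⊆ n → card Z < card t → Cv k t Z := by
  intro Z z1 z2
  have ho : om ⊆ t := ht.1.subset_of_mem ht.2.1
  have hi : ℵ₀ ≤ card t := card_om.symm.trans_le (card_mono ho)
  obtain ⟨h, P, p0, p1, p2, p3⟩ := sv_reg hk hn hb t0 t1 t2 y1 y2 y3 hs
  have := Df.two (C := Set.univ) (A := On) P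
  have : Tm Set.univ On (fun _ => n) := Tm.ofOrd hn.1
  have : Tm Set.univ On (fun _ => th) := Tm.ofOrd t0
  have := neBot (S := n) hn fun ⟨e, e1, e2⟩ => by
    obtain ⟨x, x1, -⟩ := e1.2.1 _ hn.empty_mem
    exact e2 x (e1.1 x1) x1
  have xo : ∀ G, ∀ z ∈ th.sep fun b => P b G, z.IsOrdinal := fun G z hz => t0.mem (mem_sep.1 hz).1
  have s1 : ∀ b ∈ th, ∃ j ∈ n, P b j := fun b hb => by
    obtain ⟨j, j1, j2⟩ := fr_press (S := n) hn (p := fun z x => z = h b x)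
      ((p2 b hb).mono fun x hx => ⟨_, hx, rfl⟩).frequently
    exact ⟨j, j1, (p1 b hb j).2 (j2.mono fun x ⟨z, z1, z2⟩ => z2 ▸ z1)⟩
  obtain ⟨j, j1, j2⟩ : ∃ j ∈ n, n ⊆ img (colIn (th.sep fun b => P b j)) (th.sep fun b => P b j) := by
    by_contra h3
    push Not at h3
    have h4 := fun b hb => leastBy_id (p := fun j => P b j) hn.1 (s1 b hb)
    obtain ⟨q, q0, q1⟩ : ∃ q : ZFSet.{u} → ZFSet.{u}, Tm Set.univ On (fun v => q (v 0)) ∧
        ∀ b ∈ th, q b ∈ n ∧ P b (q b) :=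
      ⟨fun b => leastBy n (fun j => j) fun j => P b j, Tm.leastBy n (fun j => j) P, h4⟩
    have := Tm.one (C := Set.univ) (A := On) q
    refine t2 (DInj.trans (b := prod n n)
      ⟨fun b => pair (q b) (colIn (th.sep fun z => P z (q b)) b), inferInstance,
        fun b hb => pair_mem_prod.2 ⟨(q1 b hb).1, hn.1.mem_trans
          (mem_img.2 ⟨b, mem_sep.2 ⟨hb, (q1 b hb).2⟩, rfl⟩)
          (((img_colIn_ord (xo _)).mem_or_subset hn.1).resolve_right (h3 _ (q1 b hb).1))⟩,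
        fun b hb d hd e => ?_⟩ (DInj.pairing hn.1 (hn.1.subset_of_mem hn.omega_mem)))
    obtain ⟨e1, e2⟩ := pair_inj.1 e
    rw [← e1] at e2
    exact colIn_inj (xo _) (mem_sep.2 ⟨hb, (q1 b hb).2⟩) (mem_sep.2 ⟨hd, e1 ▸ (q1 d hd).2⟩) e2
  have : Tm Set.univ On (fun _ => j) := Tm.ofOrd (hn.1.mem j1)
  have : Tm Set.univ On (fun _ => th.sep fun b => P b j) := inferInstance
  obtain ⟨I, i0, i1, i2⟩ := DInj.inv (C := Set.univ) (a := th.sep fun b => P b j) (b := n)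
    (fun z => colIn (th.sep fun b => P b j) z) (fun z hz w hw => colIn_inj (xo j) hz hw)
    fun z hz => mem_img.1 (j2 hz)
  have z3 : card ((img (fun p => h (fst p) (snd p)) (prod (img I Z) c)) ∩ j) < card t :=
    (card_mono fun z hz => (mem_inter.1 hz).1).trans_lt ((card_img_le _ _).trans_lt
      ((card_prod_le _ _).trans_lt (mul_lt_of_lt hi ((card_img_le _ _).trans_lt z2) c2)))
  obtain ⟨u, u1, u2, u3⟩ := cv_small ht (h2 j j1 _ (fun z hz => (mem_inter.1 hz).2) z3) z3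
  refine cv_img (Y := img I Z) ⟨img (fun W => th.sep fun b => P b W) u,
    (card_img_le _ _).trans u1, fun V hV => ?_, fun b hb' => ?_⟩ (od_iff.2 inferInstance) I i2 z1
    fun z hz => mem_img.2 ⟨z, hz, rfl⟩
  · obtain ⟨W, hW, rfl⟩ := mem_img.1 hV
    obtain ⟨w0, a, a1, a2⟩ := u2 W hW
    have := od_iff.1 w0
    have x2 : card (th.sep fun b => P b W) < card t := by
      refine (card_le_of_inj (b := powerset (prod c W))
        (fun b => (prod c W).sep fun p => snd p = h b (fst p))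
        (fun _ _ => mem_powerset.2 sep_subset) fun b hb d hd e => by_contra fun e' => ?_).trans_lt
        (by
          rw [card_powerset]
          exact sl _ ((card_prod_le _ _).trans_lt
            (mul_lt_of_lt hi c2 (a2.card_le.trans_lt (ht.card_lt a1)))))
      obtain ⟨b1, b2⟩ := mem_sep.1 hb
      obtain ⟨x, x1, x2, x3⟩ := (((p1 b b1 W).1 b2).and_eventually
        ((p3 b b1 d (mem_sep.1 hd).1 e').and (ev_club hn c1))).exists
      have h3 := (ZFSet.ext_iff.1 e (pair x (h b x))).1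
        (mem_sep.2 ⟨pair_mem_prod.2 ⟨x3, x1⟩, by rw [fst_pair, snd_pair]⟩)
      have h4 := (mem_sep.1 h3).2
      rw [fst_pair, snd_pair] at h4
      exact x2 h4
    exact ⟨od_iff.2 inferInstance, fun z => colIn (th.sep fun b => P b W) z, inferInstance,
      fun z hz => ht.1.mem_trans (mem_img.2 ⟨z, hz, rfl⟩) (H46.mem_of_card_lt
        (img_colIn_ord (xo W)) ht.1 ((card_img_le _ _).trans_lt x2)),
      fun z hz w hw => colIn_inj (xo W) hz hw⟩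
  · obtain ⟨z, hz, rfl⟩ := mem_img.1 hb'
    obtain ⟨b1, b2⟩ := mem_sep.1 (i1 z (z1 hz))
    by_contra h3
    have h4 : ∀ W ∈ u, ∀ᶠ x in cf n hn, h (I z) x ∉ W := fun W hW =>
      not_frequently.1 fun h5 => h3 ⟨_, mem_img.2 ⟨W, hW, rfl⟩, mem_sep.2 ⟨b1, (p1 _ b1 W).2 h5⟩⟩
    obtain ⟨x, x1, x2, x3⟩ := (((p1 _ b1 j).1 b2).and_eventually
      ((H57F.ev_small hn hb (Order.lt_succ_iff.2 u1) h4).and (ev_club hn c1))).exists
    obtain ⟨W, w1, w2⟩ := u3 (h (I z) x) (mem_inter.2 ⟨mem_img.2 ⟨pair (I z) x,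
      pair_mem_prod.2 ⟨mem_img.2 ⟨z, hz, rfl⟩, x3⟩, by rw [fst_pair, snd_pair]⟩, x1⟩)
    exact x2 W w1 w2

end Pool.Agent.MP_ecfd11_lc.H23W
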