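import Pool.Agent.MP_ecfd11_lc.H23W.Kc
import Pool.Agent.MP_ecfd11_lc.H23W.Rel
import Pool.Agent.MP_ecfd11_lc.H23W.Silver

/-!
Covering below an ordinal from few regular cardinals of HOD of countable cofinality.
-/

set_option synthInstance.maxSize 4000

namespace Pool.Agent.MP_ecfd11_lc.H23W

open Pool.Agent.MP_ecfd11_lc.H20 Pool.Agent.MP_ecfd11_lc.H13X Pool.Agent.MP_ecfd11_lc.H3U
  Pool.Agent.MP_ecfd11_lc.H3E Pool.Agent.MP_ecfd11_lc.H65S Pool.Agent.MP_ecfd11_lc.H65D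
  Pool.Agent.MP_ecfd11_lc.H46S Pool.Agent.MP_ecfd11_lc.H13U

universe u

open ZFSet Cardinal Function Filter

variable {t n N r s x : ZFSet.{u}} {k : Cardinal.{u}}

theorem th_lim (h : Th x s) (hx : x.IsOrdinal) (ho : om ⊆ x) : ∀ b ∈ s, insert b b ∈ s := by
  intro b hb
  have h1 := (h.succ hx).1
  have bo := h.1.mem hb
  rcases bo.mem_or_subset hx with h3 | h3
  · refine (isOrdinal_succ bo).mem_of_subset_of_mem h.1 (fun z hz => ?_) h1
    rcases mem_insert_iff.1 hz with rfl | hz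
    exacts [h3, hx.mem_trans hz h3]
  · exact ((isOrdinal_succ bo).mem_or_subset h.1).resolve_right fun h4 =>
      h.2.2 ((DInj.of_subset h4).trans ((DInj.hotel bo fun z hz => h3 (ho hz)).trans
        (h.2.1 b hb)))

theorem th_reg (h : Th x s) (hx : x.IsOrdinal) (ho : om ⊆ x) :
    Regular {x | HOD Set.univ x} s := by
  have h1 := (h.succ hx).1
  refine ⟨h.1, (isOrdinal_toZFSet _).mem_of_subset_of_mem h.1 ho h1, fun a ha f hf f1 => ?_⟩
  by_contra h2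
  push Not at h2
  have := hod_tm hf
  have ao := h.1.mem ha
  have : Tm Set.univ On (fun _ => a) := Tm.ofOrd ao
  have h3 : ∀ z ∈ img (app f) a, _ := fun z hz =>
    leastBy_id (p := fun i => app f i = z) ao (mem_img.1 hz)
  have h4 : DInj Set.univ (img (app f) a) a :=
    ⟨fun z => leastBy a (fun i => i) fun i => app f i = z,
      Tm.leastBy a (fun i => i) fun z i => app f i = z, fun z hz => (h3 z hz).1,
      fun z hz w hw e => by rw [← (h3 z hz).2, ← (h3 w hw).2]; exact congrArg _ e⟩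
  refine h.2.2 ((kp_cof (X := img (app f) a) (m := x) h.1 (od_iff.2 inferInstance)
    (fun b hb => ?_) h.2.1 (od_iff.2 (Tm.ofOrd hx))).trans
    (((h4.trans (h.2.1 a ha)).prod (DInj.of_subset subset_rfl)).trans (DInj.pairing hx ho)))
  obtain ⟨i, y, i1, i2⟩ := h2 _ (th_lim h hx ho b hb)
  obtain ⟨ia, ys⟩ := pair_mem_prod.1 (f1.1 i1)
  exact ⟨y, ys, mem_img.2 ⟨i, ia, f1.app_eq i1⟩,
    ((h.1.mem ys).notMem_iff_subset (isOrdinal_succ (h.1.mem hb))).1 i2 (mem_insert _ _)⟩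

theorem reg_not_inj (hr : Regular {x | HOD Set.univ x} r) (hx : x ∈ r) :
    ¬ DInj Set.univ r x := fun ⟨F, f0, f1, f2⟩ => by
  have := Tm.one (C := Set.univ) (A := On) F
  have : Tm Set.univ On (fun _ => r) := Tm.ofOrd hr.1
  let G : ZFSet.{u} → ZFSet.{u} := fun i => ⋃₀ (r.sep fun y => F y = i)
  have g0 : Tm Set.univ On (fun v => G (v 0)) := by
    simp only [G]; infer_instance
  have g1 : ∀ z ∈ r, G (F z) = z := fun z hz => by
    refine ZFSet.ext fun w => ⟨fun hw => ?_, fun hw => mem_sUnion.2 ⟨z, mem_sep.2 ⟨hz, rfl⟩, hw⟩⟩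
    obtain ⟨y, y1, y2⟩ := mem_sUnion.1 hw
    exact f2 y (mem_sep.1 y1).1 z hz (mem_sep.1 y1).2 ▸ y2
  have g2 : ∀ i ∈ x, G i ∈ r := fun i _ => by
    by_cases h : ∃ z ∈ r, F z = i
    · obtain ⟨z, hz, rfl⟩ := h
      rwa [g1 z hz]
    · have e : G i = ∅ := (eq_empty _).2 fun w hw => by
        obtain ⟨y, y1, -⟩ := mem_sUnion.1 hw
        exact h ⟨y, mem_sep.1 y1⟩
      exact e ▸ hr.1.mem_trans empty_mem_om hr.2.1
  obtain ⟨b, b1, b2⟩ := hr.2.2 x hx (gr G x)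
    (hod_gr (hr.1.mem hx) G fun i hi y hy => (hr.1.mem (g2 i hi)).mem hy) (isFunc_gr g2)
  exact mem_irrefl b (b2 (F b) b (pair_mem_gr.2 ⟨f1 b b1, g1 b b1⟩))

theorem step (hk : ℵ₀ ≤ k) (ht : Regular Set.univ t) (htr : t ⊆ r) (ro : r.IsOrdinal)
    (hc : ∀ s, r ∈ s → s ∈ n → Regular {x | HOD Set.univ x} s → ¬ CofOmega Set.univ s)
    (hu : Unc n) (hr : Regular {x | HOD Set.univ x} n) (htn : t ⊆ n) (hs : Few' t n)
    (h : ∀ Z, Z ⊆ r → card Z < card t → Cv k t Z) :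
    ∀ Z, Z ⊆ n → card Z < card t → Cv k t Z := by
  obtain ⟨D, e, d0, e0, h1, h2⟩ := kc ht htr ro hc hu hr htn hs
  exact rel hk ht hu hr htn D e d0 e0 h1 h2 h

theorem glue (hk : ℵ₀ ≤ k) (ht : Regular Set.univ t) (hn : n.IsOrdinal)
    (hb : ¬ H57F.Bd (Order.succ k) n)
    (ih' : ∀ b ∈ n, ∀ Z, Z ⊆ b → card Z < card t → Cv k t Z) :
    ∀ Z, Z ⊆ n → card Z < card t → Cv k t Z := fun Z z1 z2 => by
  simp only [H57F.Bd, not_forall, not_exists, not_and] at hb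
  obtain ⟨y, y1, y2, y3⟩ := hb
  have hy := Order.lt_succ_iff.1 y2
  have h5 : Cv k t y := Cv.union hk hy (fun b => {b}) (fun b hb => by
    have : Tm Set.univ On (fun _ => b) := Tm.ofOrd (hn.mem (y1 hb))
    exact Cv.self hk (od_iff.2 inferInstance) ⟨fun _ => om, inferInstance, fun _ _ => ht.2.1,
      fun x hx z hz _ => (mem_singleton.1 hx).trans (mem_singleton.1 hz).symm⟩)
    fun x hx => ⟨x, hx, mem_singleton.2 rfl⟩
  obtain ⟨u, u1, u2, u3⟩ := h5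
  obtain ⟨v, v1, v2, v3⟩ := Cv.union (X := Z.sep fun x => ∃ b ∈ y, x ∈ b) hk hy (fun b => Z ∩ b)
    (fun b hb => ih' b (y1 hb) _ (fun z hz => (mem_inter.1 hz).2)
      ((card_mono fun z hz => (mem_inter.1 hz).1).trans_lt z2)) fun x hx => by
    obtain ⟨b, b1, b2⟩ := (mem_sep.1 hx).2
    exact ⟨b, b1, mem_inter.2 ⟨(mem_sep.1 hx).1, b2⟩⟩
  refine ⟨u ∪ v, card_union_le.trans (add_le_of_le hk u1 v1), fun W hW =>
    (mem_union.1 hW).elim (u2 W) (v2 W), fun x hx => ?_⟩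
  obtain ⟨w, w1, w2⟩ := y3 x (z1 hx)
  rcases (hn.mem (z1 hx)).eq_or_mem_of_subset (hn.mem (y1 w1))
    (((hn.mem (y1 w1)).notMem_iff_subset (hn.mem (z1 hx))).1 w2) with e | e
  · obtain ⟨W, h6, h7⟩ := u3 x (e ▸ w1)
    exact ⟨W, mem_union.2 (Or.inl h6), h7⟩
  · obtain ⟨W, h6, h7⟩ := v3 x (mem_sep.2 ⟨hx, w, w1, e⟩)
    exact ⟨W, mem_union.2 (Or.inr h6), h7⟩

theorem ind (hk : ℵ₀ ≤ k) (ht : Regular Set.univ t) (sl : ∀ l < card t, 2 ^ l < card t)
    (hn : n.IsOrdinal) (hs : ∀ s, Unc s → (∀ b ∈ s, card b ≤ card n) → Few' t s)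
    (h2 : card (n.sep fun z => t ∈ z ∧ Regular {x | HOD Set.univ x} z ∧ CofOmega Set.univ z) ≤ k) :
    ∀ Z, Z ⊆ n → card Z < card t → Cv k t Z := by
  have ho : om ⊆ t := ht.1.subset_of_mem ht.2.1
  induction n using ZFSet.inductionOn with
  | _ n ih =>
  have ih' : ∀ b ∈ n, ∀ Z, Z ⊆ b → card Z < card t → Cv k t Z := fun b hb => ih b hb (hn.mem hb)
    (fun s s1 s2 => hs s s1 fun c hc => (s2 c hc).trans (card_mono (hn.subset_of_mem hb)))
    ((card_mono fun z hz =>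
      mem_sep.2 ⟨hn.mem_trans (mem_sep.1 hz).1 hb, (mem_sep.1 hz).2⟩).trans h2)
  rcases ht.1.mem_or_subset hn with h3 | h3
  swap
  · exact fun Z z1 _ => cv_mono (Cv.self hk (od_iff.2 (Tm.ofOrd hn)) (DInj.of_subset h3)) z1
  have htn := hn.subset_of_mem h3
  by_cases hb : H57F.Bd (Order.succ k) n
  swap
  · exact glue hk ht hn hb ih'
  have hu : Unc n := ⟨hn, fun z z1 z2 =>
    hb z z1 (Order.lt_succ_iff.2 (z2.trans (card_om.trans_le hk)))⟩
  by_cases h4 : H57F.Bd (card t) n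
  · intro Z z1 z2
    obtain ⟨c, c1, c2⟩ := h4 Z z1 z2
    exact ih' c c1 Z (fun z hz => c2 z hz) z2
  by_cases h5 : ∃ b ∈ n, DInj Set.univ n b
  · obtain ⟨b, b1, F, f0, f1, f2⟩ := h5
    intro Z z1 z2
    exact cv_img (ih' b b1 (img F Z) (fun y hy => by
      obtain ⟨z, hz, rfl⟩ := mem_img.1 hy
      exact f1 z (z1 hz)) ((card_img_le _ _).trans_lt z2)) (od_iff.2 (Tm.ofOrd hn)) F f2 z1
      fun z hz => mem_img.2 ⟨z, hz, rfl⟩
  push Not at h5
  obtain ⟨c, c1, c2⟩ := sup0_club ht hu h4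
  obtain ⟨d, d1, d2⟩ := hb _ sep_subset (Order.lt_succ_iff.2 h2)
  have hm := union_mem hn d1 h3
  have mo := hn.mem hm
  have m1 : t ⊆ d ∪ t := fun z hz => mem_union.2 (Or.inr hz)
  have hc : ∀ s, d ∪ t ∈ s → s ∈ n → Regular {x | HOD Set.univ x} s → ¬ CofOmega Set.univ s :=
    fun s s1 s2 s3 s4 => mem_asymm s1 (mem_union.2 (Or.inl (d2 s (mem_sep.2
      ⟨s2, ht.1.mem_of_subset_of_mem s3.1 m1 s1, s3, s4⟩))))
  by_cases hr : Regular {x | HOD Set.univ x} n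
  · exact step hk ht m1 mo hc hu hr htn
      (hs n hu fun b hb => card_mono (hn.subset_of_mem hb)) (ih' _ hm)
  obtain ⟨th, t1, -⟩ := th_exists hn
  have no : om ⊆ n := fun z hz => htn (ho hz)
  have t2 := (t1.succ hn).1
  have t3 := t1.1.subset_of_mem t2
  by_cases hv : Unc th
  · intro Z z1 z2
    refine step hk ht m1 mo (fun s s1 s2 s3 => ?_) hv (th_reg t1 hn no) (fun z hz => t3 (htn hz))
      (hs th hv fun b hb => (t1.2.1 b hb).card_le) (ih' _ hm) Z (fun z hz => t3 (z1 hz)) z2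
    rcases s3.1.mem_trichotomous hn with h6 | h6 | h6
    · exact hc s s1 h6 s3
    · exact absurd (h6 ▸ s3) hr
    · exact absurd (t1.2.1 s s2) (reg_not_inj s3 h6)
  · simp only [Unc, not_and, not_forall, not_exists] at hv
    obtain ⟨y, y1, y2, y3⟩ := hv t1.1
    refine silver hk ht sl hu hb c1 c2 t1.1 t1.2.1 t1.2.2 y2 y1 (fun b hb => ?_) ?_ ih'
    · obtain ⟨z, z1, z2⟩ := y3 _ (th_lim t1 hn no b hb)
      exact ⟨z, z1, ((t1.1.mem (y1 z1)).notMem_iff_subset (isOrdinal_succ (t1.1.mem hb))).1 z2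
        (mem_insert _ _)⟩
    · filter_upwards [ev_above hu hm, ev_mem hu] with x x1 x2 s s1 s2 s3
      have xo := hn.mem x2.2
      have s4 : Th x s := ⟨s1, s2, s3⟩
      have s5 := th_reg s4 xo fun z hz => xo.subset_of_mem x1 (m1 (ho hz))
      have s6 := (s4.succ xo).1
      have s7 : s ∈ n := by
        rcases s1.mem_trichotomous hn with h6 | h6 | h6
        · exact h6
        · exact absurd (h6 ▸ s5) hr
        · exact absurd (s2 n h6) (h5 x x2.2)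
      exact unc_of_not_cof s1 (reg_lim s5) s6 (hc s (s1.mem_trans x1 s6) s7 s5)

end Pool.Agent.MP_ecfd11_lc.H23W
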