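import Pool.Agent.MP_ecfd11_lc.H46S.Sys

/-!
The fine system of sets that inject into `rho`.
-/

set_option synthInstance.maxSize 4000

namespace Pool.Agent.MP_ecfd11_lc.H23W

open Pool.Agent.MP_ecfd11_lc.H20 Pool.Agent.MP_ecfd11_lc.H13X Pool.Agent.MP_ecfd11_lc.H3U
  Pool.Agent.MP_ecfd11_lc.H3E Pool.Agent.MP_ecfd11_lc.H65S Pool.Agent.MP_ecfd11_lc.H65D
  Pool.Agent.MP_ecfd11_lc.H46S

universe u

open ZFSet Cardinal Function Filter

variable {t n rho x : ZFSet.{u}}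

theorem kc_cof (h0 : om ∈ rho) (hrho : rho.IsOrdinal)
    (hc : ∀ r, rho ∈ r → r ∈ n → Regular {x | HOD Set.univ x} r → ¬ CofOmega Set.univ r)
    (hn : n.IsOrdinal) (hx : x ∈ n) (hw : Cw x) :
    ∃ f, OD Set.univ f ∧ ∀ b, b ∈ x → ∃ i, i ∈ rho ∧ b ∈ app f i ∧ app f i ∈ x := by
  have ho := hn.mem hx
  obtain ⟨Y, y1, y2, y3⟩ := hw
  have hl : ∀ b ∈ x, ∃ z ∈ x, b ∈ z := fun b hb => by
    obtain ⟨z, z1, z2⟩ := y3 b hb
    exact ⟨z, y1 z1, z2⟩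
  obtain ⟨r, ⟨r0, F, f0, f1, f2⟩, hmin⟩ := exists_min_mem (p := fun r : ZFSet.{u} => r.IsOrdinal ∧
    ∃ F : ZFSet.{u} → ZFSet.{u}, Tm Set.univ On (fun v => F (v 0)) ∧ (∀ i ∈ r, F i ∈ x) ∧
      ∀ b ∈ x, ∃ i ∈ r, b ∈ F i) (x := x) ⟨ho, fun i => i, inferInstance, fun _ h => h, hl⟩
  have := Tm.one (C := Set.univ) (A := On) F
  have : Tm Set.univ On (fun _ => r) := Tm.ofOrd r0
  have : Tm Set.univ On (fun _ => x) := Tm.ofOrd ho
  rcases hrho.mem_or_subset r0 with h | h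
  swap
  · refine ⟨gr F r, od_iff.2 inferInstance, fun b hb => ?_⟩
    obtain ⟨i, hi, h1⟩ := f2 b hb
    have e : app (gr F r) i = F i := (isFunc_gr f1).app_eq (pair_mem_gr.2 ⟨hi, rfl⟩)
    exact ⟨i, h hi, e ▸ h1, e ▸ f1 i hi⟩
  exfalso
  have rx : r ⊆ x := (ho.mem_or_subset r0).resolve_left fun h1 =>
    hmin x h1 ⟨ho, fun i => i, inferInstance, fun _ h => h, hl⟩
  have hb : ∀ s ∈ r, ∃ c ∈ x, ∀ j ∈ insert s s, F j ∈ c := fun s hs => by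
    have so := r0.mem hs
    obtain ⟨b, b1, b2⟩ : ∃ b ∈ x, ∀ i ∈ s, b ∉ F i := by
      by_contra h1
      push Not at h1
      exact hmin s hs ⟨so, F, f0, fun i hi => f1 i (r0.mem_trans hi hs), h1⟩
    obtain ⟨c, c1, c2⟩ := hl _ (union_mem ho b1 (f1 s hs))
    refine ⟨c, c1, fun j hj => ?_⟩
    rcases mem_insert_iff.1 hj with rfl | hj
    · exact (ho.mem (f1 j hs)).mem_of_subset_of_mem (ho.mem c1)
        (fun z hz => mem_union.2 (Or.inr hz)) c2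
    · have j1 := ho.mem (f1 j (r0.mem_trans hj hs))
      exact j1.mem_of_subset_of_mem (ho.mem c1) (fun z hz => mem_union.2 (Or.inl
        (((ho.mem b1).notMem_iff_subset j1).1 (b2 j hj) hz))) c2
  have hr : Regular {x | HOD Set.univ x} r := by
    refine ⟨r0, r0.mem_trans h0 h, fun a ha f hf h1 => ?_⟩
    by_contra h2
    push Not at h2
    have := hod_tm hf
    let G : ZFSet.{u} → ZFSet.{u} := fun i => leastBy x (fun c => c)
      fun c => ∀ j, j ∈ insert (app f i) (app f i) → F j ∈ c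
    have g0 : Tm Set.univ On (fun v => G (v 0)) :=
      Tm.leastBy x (fun c => c) fun i c => ∀ j, j ∈ insert (app f i) (app f i) → F j ∈ c
    have g1 : ∀ i ∈ a, G i ∈ x ∧ ∀ j, j ∈ insert (app f i) (app f i) → F j ∈ G i :=
      fun i hi => leastBy_id ho (hb _ (h1.app_mem' hi))
    refine hmin a ha ⟨r0.mem ha, G, g0, fun i hi => (g1 i hi).1, fun b hb' => ?_⟩
    obtain ⟨j, j1, j2⟩ := f2 b hb'
    obtain ⟨i, y, i1, i2⟩ := h2 j j1
    obtain ⟨ia, yr⟩ := pair_mem_prod.1 (h1.1 i1)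
    have e : app f i = y := (h1.2 i ia).unique (h1.app_mem ia) i1
    refine ⟨i, ia, (ho.mem (g1 i ia).1).mem_trans j2 ((g1 i ia).2 j ?_)⟩
    rw [e]
    rcases (r0.mem j1).mem_trichotomous (r0.mem yr) with k | k | k
    exacts [mem_insert_of_mem _ k, k ▸ mem_insert _ _, absurd k i2]
  have hu := unc_of_not_cof r0 (reg_lim hr) h (hc r h (r0.mem_of_subset_of_mem hn rx hx) hr)
  have hy : card Y ≤ card om.{u} := by
    rw [succCard, card_ord', not_le] at y2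
    exact Order.lt_succ_iff.1 y2
  choose! I i1 i2 using f2
  obtain ⟨c, c1, c2⟩ := hu.2 (img I Y) (fun w hw => by
    obtain ⟨b, hb, rfl⟩ := mem_img.1 hw
    exact i1 b (y1 hb)) ((card_img_le _ _).trans hy)
  refine hmin c c1 ⟨r0.mem c1, F, f0, fun i hi => f1 i (r0.mem_trans hi c1), fun b hb' => ?_⟩
  obtain ⟨z, z1, z2⟩ := y3 b hb'
  exact ⟨I z, c2 _ (mem_img.2 ⟨z, z1, rfl⟩),
    (ho.mem (f1 _ (i1 z (y1 z1)))).mem_trans z2 (i2 z (y1 z1))⟩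


theorem kc (ht : Regular Set.univ t) (htr : t ⊆ rho) (hrho : rho.IsOrdinal)
    (hc : ∀ r, rho ∈ r → r ∈ n → Regular {x | HOD Set.univ x} r → ¬ CofOmega Set.univ r)
    (hu : Unc n) (hr : Regular {x | HOD Set.univ x} n) (htn : t ⊆ n) (hs : Few' t n) :
    ∃ (D : ZFSet.{u} → ZFSet.{u}) (e : ZFSet.{u} → ZFSet.{u} → ZFSet.{u}),
      Tm Set.univ On (fun v => D (v 0)) ∧ Tm Set.univ On (fun v => e (v 0) (v 1)) ∧
      (∀ x ∈ n, Cw x → (∀ z ∈ D x, e x z ∈ rho) ∧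
        ∀ z ∈ D x, ∀ w ∈ D x, e x z = e x w → z = w) ∧
      ∀ z ∈ n, ∀ᶠ x in cf (n.sep Cw) hu, z ∈ D x := by
  have : Tm Set.univ On (fun _ => n) := Tm.ofOrd hu.1
  have : Tm Set.univ On (fun _ => rho) := Tm.ofOrd hrho
  have : Tm Set.univ On (fun _ => succCard om.{u}) := Tm.ofOrd (succCard_ord _)
  have := tm_W hu.1
  obtain ⟨f, f0, f1⟩ := od_choice (C := Set.univ) n (fun x f => Sm (succCard om) x →
      ∀ b, b ∈ x → ∃ i, i ∈ rho ∧ b ∈ app f i ∧ app f i ∈ x) fun x hx => by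
    by_cases k : Cw x
    · obtain ⟨y, y0, y1⟩ := kc_cof (htr ht.2.1) hrho hc hu.1 hx k
      exact ⟨y, y0, fun _ => y1⟩
    · exact ⟨x, od_iff.2 (Tm.ofOrd (hu.1.mem hx)), fun k' => absurd k' k⟩
  replace f1 := fun x hx => f1 x hx trivial
  have := Tm.one (C := Set.univ) (A := On) f
  obtain ⟨C, hC⟩ : ∃ C : ZFSet.{u} → ZFSet.{u},
      C = fun x => x.sep fun z => ∃ i, i ∈ rho ∧ app (f x) i = z := ⟨_, rfl⟩
  have c0 : Tm Set.univ On (fun v => C (v 0)) := by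
    rw [hC]; infer_instance
  have c1 : ∀ x z, z ∈ C x ↔ z ∈ x ∧ ∃ i, i ∈ rho ∧ app (f x) i = z := fun x z => by
    rw [hC, mem_sep]
  have := Tm.one (C := Set.univ) (A := On) C
  have c2 : ∀ x ∈ n, Cw x → ∀ b, b ∈ x → ∃ z, z ∈ C x ∧ b ∈ z := fun x hx hw b hb => by
    obtain ⟨i, i1, i2, i3⟩ := f1 x hx hw b hb
    exact ⟨_, (c1 _ _).2 ⟨i3, i, i1, rfl⟩, i2⟩
  have h1 := ket hu hr htn hs C fun x hx hw => ⟨fun z hz => ((c1 x z).1 hz).1, c2 x hx hw⟩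
  have l0 : Tm Set.univ On (fun v => lim (v 0) (C (v 0))) := by
    unfold H20.lim; infer_instance
  have := Tm.one (C := Set.univ) (A := On) fun y => lim y (C y)
  obtain ⟨P, hP⟩ : ∃ P, P = n.sep fun g =>
      Null n ((n.sep Cw).sep fun y => ¬ g ∈ lim y (C y)) := ⟨_, rfl⟩
  have p0 : Tm Set.univ On (fun _ => P) := by
    rw [hP]; infer_instance
  have p1 : ∀ g, g ∈ P ↔ g ∈ n ∧ ∀ᶠ y in cf (n.sep Cw) hu, g ∈ lim y (C y) := fun g => by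
    rw [hP, mem_sep]; exact Iff.rfl
  have p2 : P ⊆ n := fun g hg => ((p1 g).1 hg).1
  have p3 := reg_sub hr (od_iff.2 p0) p2 fun b hb => by
    obtain ⟨g, g1, g2, g3⟩ := h1 b hb
    exact ⟨g, (p1 g).2 ⟨g1, g3⟩, g2⟩
  let q : ZFSet.{u} → ZFSet.{u} → ZFSet.{u} → Prop := fun x z i =>
    ∃ g, g ∈ P ∧ colIn P g = z ∧ g ∈ app (f x) i ∧ app (f x) i ∈ x ∧
      ∀ c, c ∈ C x → g ∈ c → c ∉ app (f x) i
  have q1 : ∀ x ∈ n, Cw x → ∀ z, (∃ g, g ∈ lim x (C x) ∧ g ∈ P ∧ colIn P g = z) →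
      leastBy rho (fun i => i) (q x z) ∈ rho ∧ q x z (leastBy rho (fun i => i) (q x z)) :=
    fun x hx hw z ⟨g, g1, g2, g3⟩ => leastBy_id hrho (by
      obtain ⟨c, a1, a2⟩ := c2 x hx hw g (mem_sep.1 g1).1
      obtain ⟨w, ⟨w1, w2⟩, w3⟩ := exists_min_mem (p := fun c => c ∈ C x ∧ g ∈ c) ⟨a1, a2⟩
      obtain ⟨w4, i, i1, rfl⟩ := (c1 _ _).1 w1
      exact ⟨i, i1, g, g2, g3, w2, w4, fun c b1 b2 b3 => w3 c b3 ⟨b1, b2⟩⟩)
  have po : ∀ z ∈ P, z.IsOrdinal := fun z hz => hu.1.mem (p2 hz)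
  refine ⟨fun y => n.sep fun z => ∃ g, g ∈ lim y (C y) ∧ g ∈ P ∧ colIn P g = z,
    fun x z => leastBy rho (fun i => i) (q x z), inferInstance, ?_,
    fun x hx hw => ⟨fun z hz => (q1 x hx hw z (mem_sep.1 hz).2).1, fun z hz w hw' e => ?_⟩,
    fun z hz => ?_⟩
  · simp only [q]
    unfold leastBy
    infer_instance
  · obtain ⟨g, g1, g2, g3, g4, g5⟩ := (q1 x hx hw z (mem_sep.1 hz).2).2
    obtain ⟨k, k1, k2, k3, -, k5⟩ := (q1 x hx hw w (mem_sep.1 hw').2).2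
    obtain ⟨g', a1, a2, a3⟩ := (mem_sep.1 hz).2
    obtain ⟨k', b1, b2, b3⟩ := (mem_sep.1 hw').2
    obtain rfl := colIn_inj po a2 g1 (a3.trans g2.symm)
    obtain rfl := colIn_inj po b2 k1 (b3.trans k2.symm)
    replace e : leastBy rho (fun i => i) (q x z) = leastBy rho (fun i => i) (q x w) := e
    rw [← e] at k3 k5
    have wo := (hu.1.mem hx).mem g4
    rcases (po _ g1).mem_trichotomous (po _ k1) with h | h | h
    · obtain ⟨c, d1, d2, d3⟩ := (mem_sep.1 b1).2.2 _ h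
      exact absurd (wo.mem_trans d3 k3) (g5 c d1 d2)
    · rw [← g2, ← k2, h]
    · obtain ⟨c, d1, d2, d3⟩ := (mem_sep.1 a1).2.2 _ h
      exact absurd (wo.mem_trans d3 g3) (k5 c d1 d2)
  · obtain ⟨g, g1, rfl⟩ := mem_img.1 (p3 hz)
    filter_upwards [((p1 g).1 g1).2] with y hy using mem_sep.2 ⟨hz, g, hy, g1, rfl⟩

end Pool.Agent.MP_ecfd11_lc.H23W
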