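import Pool.Agent.MP_ecfd11_lc.H23W.Defs
import Pool.Agent.MP_ecfd11_lc.H23W.Ind
import Pool.Agent.MP_ecfd11_lc.H13U.Main

/-!
Complete ultrafilters over HOD are in HOD, from few regular cardinals of countable cofinality.
-/

set_option synthInstance.maxSize 4000

namespace Pool.Agent.MP_ecfd11_lc.H23W

open Pool.Agent.MP_ecfd11_lc.H20 Pool.Agent.MP_ecfd11_lc.H13X Pool.Agent.MP_ecfd11_lc.H3U
  Pool.Agent.MP_ecfd11_lc.H3E Pool.Agent.MP_ecfd11_lc.H65S Pool.Agent.MP_ecfd11_lc.H65D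
  Pool.Agent.MP_ecfd11_lc.H46S Pool.Agent.MP_ecfd11_lc.H13U Pool.Agent.MP_ecfd11_lc.H13F

universe u

open ZFSet Cardinal Function Filter

variable {d g t X W : ZFSet.{u}} {k : Cardinal.{u}}

theorem cvr_far (hd : Extendible d) (hs : StronglyMeasurable Set.univ d) (ht : Regular Set.univ t)
    (hdt : d ⊆ t) (sl : ∀ l < card t, 2 ^ l < card t) (hk : ℵ₀ ≤ k) (hX : HOD Set.univ X)
    (h : FewOm k t X) : Cvr k t X := fun Z z1 z2 => by
  obtain ⟨n, f, hn, f0, f1, f2, h2⟩ := h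
  obtain ⟨e, e1, -, e3⟩ := exists_sc_above hd (succCard_ord n) hs.1.2.1 subset_rfl
  obtain ⟨m, m1, m2⟩ := H57F.gap_of_sm e3.1 e1 hs
  have hf : ∀ s, Unc s → (∀ b ∈ s, card b ≤ card n) → Few' t s := fun s s1 s2 => by
    by_cases hb : H57F.Bd (card t) s
    · exact sat_big s1 e3.1 (H57F.refl_bd (sc_move e3 (card_mono fun b hb =>
        mem_succCard.2 ⟨s1.1.mem hb, s2 b hb⟩)) s1 (hb.mono (ht.card_lt (hdt e1)).le)) m2
        (ht.card_lt (hdt m1))
    · obtain ⟨E, c1, c2⟩ := sup0_club ht s1 hb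
      exact sat_small c1 c2
  have := hod_tm f0
  have : Tm Set.univ On (fun _ => n) := Tm.ofOrd hn
  have h1 : ∀ x ∈ X, _ := fun x hx =>
    leastBy_id (p := fun i => app f i = x) hn (by
      obtain ⟨r, hr⟩ := f2 x hx
      exact ⟨r, (pair_mem_prod.1 (f1.1 hr)).1, f1.app_eq hr⟩)
  have h3 : Cv k t Z := cv_img (ind hk ht sl hn hf h2
    (img (fun x => leastBy n (fun i => i) fun i => app f i = x) Z)
    (fun y hy => by
      obtain ⟨x, hx, rfl⟩ := mem_img.1 hy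
      exact (h1 x (z1 hx)).1) ((card_img_le _ _).trans_lt z2)) hX.self
    (fun x => leastBy n (fun i => i) fun i => app f i = x)
    (f0 := Tm.leastBy n (fun i => i) fun x i => app f i = x)
    (fun x hx z hz e => by rw [← (h1 x hx).2, ← (h1 z hz).2]; exact congrArg _ e) z1
    fun x hx => mem_img.2 ⟨x, hx, rfl⟩
  obtain ⟨u, u1, u2, u3⟩ := cv_small ht h3 z2
  refine ⟨img (fun W => X ∩ W) u, (card_img_le _ _).trans u1, fun G hG => ?_, fun z hz => ?_⟩
  · obtain ⟨W, hW, rfl⟩ := mem_img.1 hG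
    obtain ⟨w0, b, b1, F, -, f1, f2⟩ := u2 W hW
    exact ⟨hod_inter hX w0, (card_mono fun z hz => (mem_inter.1 hz).2).trans_lt
      ((card_le_of_inj F f1 f2).trans_lt (ht.card_lt b1))⟩
  · obtain ⟨W, w1, w2⟩ := u3 z hz
    exact ⟨_, mem_img.2 ⟨W, w1, rfl⟩, mem_inter.2 ⟨z1 hz, w2⟩⟩

theorem main (hd : Extendible d) (ht : Regular Set.univ t) (sl : ∀ l < card t, 2 ^ l < card t)
    (hdt : d ⊆ t) (hk : k < card d) (hc : FewOm k t (Lev t))
    (U : Filter ZFSet.{u}) (h0 : U.NeBot) (h1 : CardinalInterFilter U (lift.{u + 1} (card t)))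
    (h2 : (t : Set ZFSet.{u}) ∈ U)
    (h3 : ∀ A, HOD Set.univ A → A ⊆ t → (A : Set ZFSet.{u}) ∈ U ∨ (A : Set ZFSet.{u})ᶜ ∈ U) :
    HOD Set.univ ((powerset t).sep fun A => HOD Set.univ A ∧ (A : Set ZFSet.{u}) ∈ U) := by
  obtain ⟨m, n, j, -, e⟩ := hd.xe 0
  have go := isOrdinal_toZFSet (max k ℵ₀).ord
  have g1 : card (max k ℵ₀).ord.toZFSet = max k ℵ₀ := card_ord' _
  have : Tm Set.univ On (fun _ => t) := Tm.ofOrd ht.1
  have hK : K t ((Lev t).sep fun A => (A : Set ZFSet.{u}) ∈ U) := by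
    refine ⟨sep_subset, fun Z z1 z2 => ?_⟩
    have h4 : ∀ᶠ p in U, ∀ A ∈ Z, ((A : Set ZFSet.{u}) ∈ U ↔ p ∈ A) :=
      (eventually_cardinal_ball (S := (Z : Set ZFSet.{u}))
        (p := fun p A _ => (A : Set ZFSet.{u}) ∈ U ↔ p ∈ A) (by
          have := cardinalMk_coe_sort (x := Z)
          change #Z < _
          rw [this]
          exact lift_lt.2 (not_le.1 z2))).2 fun A hA => by
        by_cases h : (A : Set ZFSet.{u}) ∈ U
        · filter_upwards [h] with p hp using iff_of_true h hp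
        · rcases h3 (A ∩ t) (hod_inter ((mem_Lev ht.1).1 (z1 hA)).2 (od_iff.2 this))
            (fun _ hz => (mem_inter.1 hz).2) with h5 | h5
          · exact absurd (mem_of_superset h5 fun _ hz => (mem_inter.1 hz).1) h
          · filter_upwards [h5, h2] with p p1 p2 using
              iff_of_false h fun hp => p1 (mem_inter.2 ⟨hp, p2⟩)
    obtain ⟨p, p1, p2⟩ := (h4.and h2).exists
    exact ⟨p, p2, fun A hA => (mem_sep.trans (and_iff_right (z1 hA))).trans (p1 A hA)⟩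
  have hW : HOD Set.univ ((Lev t).sep fun A => (A : Set ZFSet.{u}) ∈ U) := by
    by_cases hs : StronglyMeasurable Set.univ d
    swap
    · exact near_hod hd ht hdt e.regular subset_rfl hs hK
    refine k_hod hd ht hdt (e.regular.mem_of_card_lt go
      (g1.trans_lt (max_lt hk e.regular.aleph0_lt)))
      ((om_subset_iff go).2 ((le_max_right _ _).trans_eq g1.symm)) ?_ hK
    obtain ⟨n, f, a1, a2, a3, a4, a5⟩ := hc
    rw [g1]
    exact cvr_far hd hs ht hdt sl (le_max_right _ _) (hod_Lev ht.1)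
      ⟨n, f, a1, a2, a3, a4, a5.trans (le_max_left _ _)⟩
  have e1 : ((powerset t).sep fun A => HOD Set.univ A ∧ (A : Set ZFSet.{u}) ∈ U) =
      ((Lev t).sep fun A => (A : Set ZFSet.{u}) ∈ U) ∩ powerset t := ZFSet.ext fun A => by
    rw [mem_sep, mem_inter, mem_sep, mem_Lev ht.1, mem_powerset]
    exact ⟨fun h => ⟨⟨⟨fun z hz => H3E.mem_vC ht.1 (h.1 hz), h.2.1⟩, h.2.2⟩, h.1⟩,
      fun h => ⟨h.2, h.1.1.2, h.1.2⟩⟩
  exact e1 ▸ hod_inter hW (od_iff.2 inferInstance)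

end Pool.Agent.MP_ecfd11_lc.H23W
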